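import Pool.Agent.Helper65.TU.Stmts

/-! Row SOL of the sheet `Pool.Agent.Helper65.TU.Stmts`: the solid hull of a weakly compact set is
weakly compact. -/

open Set Filter Topology Uniformity

namespace Pool.Agent.Helper65.TU

universe u v

namespace S92

variable {X : Type u} [NormedAddCommGroup X] [NormedSpace ℝ X]

lemma cont_weak {α : Type*} [TopologicalSpace α] (g : α → X)
    (h : ∀ f : X →L[ℝ] ℝ, Continuous fun a => f (g a)) :
    Continuous fun a => toWeakSpace ℝ X (g a) :=
  WeakBilin.continuous_of_continuous_eval _ h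

lemma cont_eval (f : X →L[ℝ] ℝ) :
    Continuous fun w : WeakSpace ℝ X => f ((toWeakSpace ℝ X).symm w) :=
  WeakBilin.eval_continuous (topDualPairing ℝ X).flip f

end S92

open S92 in
theorem st_SOL (hT : ST_TAIL.{u, v}) (hL : ST_L1.{u, v}) : ST_SOL.{u, v} := by
  classical
  intro Γ X _ _ e co C hcs K hK
  choose! T hTc hTb using hcs.mul
  let P : Set (Γ → ℝ) := Set.pi univ fun _ => Icc (-1) 1
  have hP : IsCompact P := isCompact_univ_pi fun _ => isCompact_Icc
  have hPK : IsCompact (P ×ˢ (toWeakSpace ℝ X '' K)) := hP.prod hK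
  let α := ↥(P ×ˢ (toWeakSpace ℝ X '' K))
  haveI : CompactSpace α := isCompact_iff_compactSpace.1 hPK
  let Ψ : α → X := fun a => T a.1.1 ((toWeakSpace ℝ X).symm a.1.2)
  have hs1 : ∀ a : α, ∀ g, |a.1.1 g| ≤ 1 := by
    intro a g
    exact abs_le.2 (a.2.1 g (mem_univ g))
  have hxK : ∀ a : α, (toWeakSpace ℝ X).symm a.1.2 ∈ K := by
    intro a
    obtain ⟨x, hx, hxa⟩ := a.2.2
    rw [← hxa]
    simpa using hx
  have hcont : Continuous fun a : α => toWeakSpace ℝ X (Ψ a) := by
    refine cont_weak Ψ fun f => ?_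
    refine continuous_of_uniform_approx_of_continuous fun U hU => ?_
    obtain ⟨ε, hε, hεU⟩ := Metric.mem_uniformity_dist.1 hU
    obtain ⟨F, hF⟩ := hT Γ X e co C hcs f K hK (ε / 2) (half_pos hε)
    refine ⟨fun a => ∑ g ∈ F, a.1.1 g * (f (e g) * co g ((toWeakSpace ℝ X).symm a.1.2)),
      ?_, fun a => hεU ?_⟩
    · refine continuous_finsetSum _ fun g _ => ?_
      have c1 : Continuous fun a : α => a.1.1 g :=
        (continuous_apply g).comp (continuous_fst.comp continuous_subtype_val)
      have c2 : Continuous fun a : α => co g ((toWeakSpace ℝ X).symm a.1.2) :=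
        (cont_eval (co g)).comp (continuous_snd.comp continuous_subtype_val)
      exact c1.mul (continuous_const.mul c2)
    · have hs := hs1 a
      have hx := hxK a
      change dist (f (T a.1.1 ((toWeakSpace ℝ X).symm a.1.2)))
        (∑ g ∈ F, a.1.1 g * (f (e g) * co g ((toWeakSpace ℝ X).symm a.1.2))) < ε
      generalize a.1.1 = s at hs ⊢
      generalize (toWeakSpace ℝ X).symm a.1.2 = x at hx ⊢
      obtain ⟨hsum, _, hrep⟩ := hL Γ X e co C hcs f x
      have h1 : f (T s x) = ∑' g, s g * (f (e g) * co g x) := hrep s hs _ (hTc s hs x)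
      have hsm : ∀ t : Γ → ℝ, (∀ g, |t g| ≤ 1) →
          Summable fun g => t g * (f (e g) * co g x) := fun t ht =>
        Summable.of_norm_bounded hsum fun g => by
          rw [Real.norm_eq_abs, abs_mul]
          exact mul_le_of_le_one_left (abs_nonneg _) (ht g)
      let s' : Γ → ℝ := fun g => if g ∈ F then 0 else s g
      have hs' : ∀ g, |s' g| ≤ 1 := by
        intro g
        by_cases hg : g ∈ F
        · simp [s', hg]
        · simpa [s', hg] using hs g
      have h2 : ∑' g, s g * (f (e g) * co g x) =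
          ∑' g, s' g * (f (e g) * co g x) + ∑ g ∈ F, s g * (f (e g) * co g x) := by
        have e1 : (fun g => s g * (f (e g) * co g x)) = fun g =>
            s' g * (f (e g) * co g x) + (if g ∈ F then s g * (f (e g) * co g x) else 0) := by
          funext g
          by_cases hg : g ∈ F <;> simp [s', hg]
        have e2 : ∑' g, (if g ∈ F then s g * (f (e g) * co g x) else 0) =
            ∑ g ∈ F, s g * (f (e g) * co g x) := by
          rw [tsum_eq_sum (s := F) (fun g hg => if_neg hg)]
          exact Finset.sum_congr rfl fun g hg => if_pos hg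
        have e3 : Summable fun g => (if g ∈ F then s g * (f (e g) * co g x) else 0) :=
          summable_of_ne_finset_zero (s := F) fun g hg => if_neg hg
        conv_lhs => rw [e1]
        rw [Summable.tsum_add (hsm s' hs') e3, e2]
      rw [h1, h2, Real.dist_eq, add_sub_cancel_right]
      exact (hF x hx s' hs' fun g hg => by simp [s', hg]).trans_lt (half_lt_self hε)
  have hran : range (fun a : α => toWeakSpace ℝ X (Ψ a)) =
      toWeakSpace ℝ X '' {y : X | ∃ x ∈ K, ∃ s : Γ → ℝ, (∀ g, |s g| ≤ 1) ∧
        ∀ g, co g y = s g * co g x} := by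
    ext w
    constructor
    · rintro ⟨a, rfl⟩
      exact ⟨Ψ a, ⟨_, hxK a, a.1.1, hs1 a, hTc _ (hs1 a) _⟩, rfl⟩
    · rintro ⟨y, ⟨x, hx, s, hs, hy⟩, rfl⟩
      refine ⟨⟨(s, toWeakSpace ℝ X x), ⟨fun g _ => abs_le.1 (hs g), x, hx, rfl⟩⟩, ?_⟩
      have : T s x = y := by
        rw [← sub_eq_zero]
        refine hcs.sep _ fun g => ?_
        rw [map_sub, hTc s hs x g, hy g, sub_self]
      simp only [Ψ, LinearEquiv.symm_apply_apply, this]
  unfold WCpt
  rw [← hran]
  exact isCompact_range hcont

end Pool.Agent.Helper65.TU
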